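import Pool.Agent.NPC.Classes

set_option autoImplicit false

namespace Pool.Agent.H287Z.NC

open Pool.Agent.NPC

/-- An edge-labelled digraph, as the list of its edges `(source, label, target)`. -/
abbrev Edges : Type := List (ℕ × Bool × ℕ)

/-- `Path E u y v`: some directed path from `u` to `v` has yield `y`. -/
inductive Path (E : Edges) : ℕ → List Bool → ℕ → Prop
  | nil (u : ℕ) : Path E u [] u
  | cons {u v t : ℕ} {b : Bool} {y : List Bool} : (u, b, v) ∈ E → Path E v y t → Path E u (b :: y) t

/-- There is no directed cycle. -/
def Acyclic (E : Edges) : Prop := ∀ u y, Path E u y u → y = []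

/-- The language `L`-DAGREACH. -/
def DagReach (L : Set (List Bool)) : Set (List Bool) :=
  lang fun p : Edges × ℕ × ℕ => Acyclic p.1 ∧ ∃ y ∈ L, Path p.1 p.2.1 y p.2.2

/-- A gate of fan-in two: the truth table and the numbers of the two wires it reads. -/
abbrev Gate : Type := (Bool × Bool × Bool × Bool) × ℕ × ℕ

/-- The value of a truth table. -/
def table (t : Bool × Bool × Bool × Bool) : Bool → Bool → Bool
  | false, false => t.1
  | false, true => t.2.1
  | true, false => t.2.2.1
  | true, true => t.2.2.2

/-- The values of all wires: first the input bits, then the gates in their order. -/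
def wires (x : List Bool) (C : List Gate) : List Bool :=
  C.foldl (fun ws g => ws ++ [table g.1 (ws.getD g.2.1 false) (ws.getD g.2.2 false)]) x

/-- The depths of all wires, for `n` input bits. -/
def depths (n : ℕ) (C : List Gate) : List ℕ :=
  C.foldl (fun ds g => ds ++ [max (ds.getD g.2.1 0) (ds.getD g.2.2 0) + 1]) (List.replicate n 0)

/-- A symbol of the input tape. -/
inductive Sym : Type
  | left : Sym
  | right : Sym
  | bit (b : Bool) : Sym

/-- A move of a head. -/
inductive Dir : Type
  | left : Dir
  | stay : Dir
  | right : Dir

/-- The new position of a head on a tape with cells `0, 1, 2, ...`. -/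
def Dir.move : Dir → ℕ → ℕ
  | Dir.left, p => p - 1
  | Dir.stay, p => p
  | Dir.right, p => p + 1

/-- The input tape holds the input between two end markers. -/
def inSym (x : List Bool) : ℕ → Sym
  | 0 => Sym.left
  | i + 1 => match x[i]? with
    | some b => Sym.bit b
    | none => Sym.right

/-- A deterministic Turing transducer with a read-only input tape, one work tape and a write-only
output tape. A transition gives the new state, the symbol written, the moves of the input head and
of the work head, and the word appended to the output; `none` means halting. -/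
structure Machine : Type 1 where
  Q : Type
  G : Type
  finQ : Finite Q
  finG : Finite G
  start : Q
  blank : G
  trans : Q → Sym → G → Option (Q × G × Dir × Dir × List Bool)

/-- A configuration: state, input head, work tape, work head, output so far. -/
structure Cfg (M : Machine) : Type where
  q : M.Q
  i : ℕ
  tape : ℕ → M.G
  h : ℕ
  out : List Bool

/-- One step of the machine on input `x`. -/
def step (M : Machine) (x : List Bool) (c : Cfg M) : Option (Cfg M) :=
  (M.trans c.q (inSym x c.i) (c.tape c.h)).map fun r =>
    ⟨r.1, min (r.2.2.1.move c.i) (x.length + 1), Function.update c.tape c.h r.2.1,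
      r.2.2.2.1.move c.h, c.out ++ r.2.2.2.2⟩

/-- On input `x` the machine halts with output `y`, and its work head stays in the cells
`0, ..., s`. -/
def Computes (M : Machine) (x y : List Bool) (s : ℕ) : Prop :=
  ∃ c : Cfg M, Relation.ReflTransGen (fun a b => step M x a = some b ∧ b.h ≤ s)
    ⟨M.start, 0, fun _ => M.blank, 0, []⟩ c ∧ step M x c = none ∧ c.out = y

/-- The class `NC`: logspace-uniform circuit families of polynomial size and polylogarithmic
depth; the output is the last wire. -/
def InNC (L : Set (List Bool)) : Prop :=
  ∃ (C : ℕ → List Gate) (M : Machine) (c k : ℕ),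
    (∀ n, Computes M (List.replicate n true) (bits (C n)) (c * (Nat.log 2 n + 1))) ∧
    (∀ n, (C n).length ≤ c * (n + 1) ^ k) ∧
    (∀ n, ∀ d ∈ depths n (C n), d ≤ c * (Nat.log 2 n + 1) ^ k) ∧
    ∀ x, x ∈ L ↔ (wires x (C x.length)).getLastD false = true

end Pool.Agent.H287Z.NC
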