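import Pool.Agent.H287Z.NC.Defs
import Pool.Agent.H622R2.CoNP

set_option autoImplicit false

namespace Pool.Agent.H287Z.NC

open Pool.Agent.NPC

variable {E : Edges}

theorem Path.append {u v t : ℕ} {y z : List Bool} (h : Path E u y v) (h' : Path E v z t) :
    Path E u (y ++ z) t := by
  induction h with
  | nil => exact h'
  | cons he _ ih => exact Path.cons he (ih h')

theorem Path.split {t : ℕ} {z : List Bool} : ∀ {y : List Bool} {u : ℕ}, Path E u (y ++ z) t →
    ∃ v, Path E u y v ∧ Path E v z t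
  | [], u, h => ⟨u, Path.nil u, h⟩
  | b :: y, u, h => by
    cases h with
    | cons he h =>
      obtain ⟨v, h1, h2⟩ := Path.split h
      exact ⟨v, Path.cons he h1, h2⟩

/-- reverse all edges -/
def rev (E : Edges) : Edges := E.map fun e => (e.2.2, e.2.1, e.1)

theorem rev_rev (E : Edges) : rev (rev E) = E := by simp [rev, Function.comp_def]

theorem Path.rev {u v : ℕ} {y : List Bool} (h : Path E u y v) : Path (rev E) v y.reverse u := by
  induction h with
  | nil => exact Path.nil _
  | cons he _ ih =>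
    rw [List.reverse_cons]
    exact ih.append (Path.cons (List.mem_map.2 ⟨_, he, rfl⟩) (Path.nil _))

theorem Path.length_le (hE : Acyclic E) {u v : ℕ} {y : List Bool} (h : Path E u y v) :
    y.length ≤ E.length := by
  have key : ∃ S : List ℕ, S.Nodup ∧ S.length = y.length ∧ S ⊆ E.map Prod.fst ∧
      ∀ s ∈ S, ∃ z, Path E u z s := by
    induction h with
    | nil => exact ⟨[], by simp, rfl, by simp, by simp⟩
    | @cons u v t b y he _ ih =>
      obtain ⟨S, h1, h2, h3, h4⟩ := ih
      refine ⟨u :: S, List.nodup_cons.2 ⟨fun h => ?_, h1⟩, by simp [h2],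
        List.cons_subset.2 ⟨List.mem_map.2 ⟨_, he, rfl⟩, h3⟩, ?_⟩
      · obtain ⟨z, hz⟩ := h4 u h
        exact absurd (hE _ _ (Path.cons he hz)) (by simp)
      · intro s hs
        rcases List.mem_cons.1 hs with rfl | hs
        · exact ⟨[], Path.nil _⟩
        · obtain ⟨z, hz⟩ := h4 s hs
          exact ⟨_, Path.cons he hz⟩
  obtain ⟨S, h1, h2, h3, -⟩ := key
  simpa [h2] using (List.subperm_of_subset h1 h3).length_le

theorem long_path : ∀ (N : ℕ) {u : ℕ} {y : List Bool}, Path E u y u → y ≠ [] →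
    ∃ v z, v ∈ E.map Prod.fst ∧ Path E u z v ∧ z.length = N
  | 0, u, y, h, hy => by
    cases h with
    | nil => exact absurd rfl hy
    | cons he _ => exact ⟨u, [], List.mem_map.2 ⟨_, he, rfl⟩, Path.nil u, rfl⟩
  | N + 1, u, y, h, hy => by
    cases h with
    | nil => exact absurd rfl hy
    | cons he h =>
      obtain ⟨v, z, h1, h2, h3⟩ := long_path N (h.append (Path.cons he (Path.nil _))) (by simp)
      exact ⟨v, _, h1, Path.cons he h2, by simp [h3]⟩

/-- keep two different members -/
def two : List (List Bool) → List (List Bool)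
  | [] => []
  | a :: l => a :: (l.filter fun b => !decide (b = a)).head?.toList

theorem two_sub {l : List (List Bool)} {y : List Bool} (h : y ∈ two l) : y ∈ l := by
  cases l with
  | nil => exact h
  | cons a l =>
    rcases List.mem_cons.1 h with rfl | h
    · simp
    · exact List.mem_cons_of_mem _ (List.mem_filter.1 (List.mem_of_mem_head? (by simpa using h))).1

theorem two_length (l : List (List Bool)) : (two l).length ≤ 2 := by
  cases l with
  | nil => simp [two]
  | cons a l =>
    simp only [two, List.length_cons]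
    cases (l.filter fun b => !decide (b = a)).head? <;> simp

theorem two_spec {l : List (List Bool)} {y : List Bool} (h : y ∈ l) :
    y ∈ two l ∨ ∃ y1 ∈ two l, ∃ y2 ∈ two l, y1 ≠ y2 := by
  cases l with
  | nil => exact absurd h (by simp)
  | cons a l =>
    by_cases e : y = a
    · exact Or.inl (by simp [two, e])
    · have h1 : y ∈ l.filter fun b => !decide (b = a) := by
        rw [List.mem_filter]
        exact ⟨(List.mem_cons.1 h).resolve_left e, by simpa using e⟩
      obtain ⟨b, l', h2⟩ := List.exists_cons_of_ne_nil (List.ne_nil_of_mem h1)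
      have h3 : b ∈ l.filter fun b => !decide (b = a) := by rw [h2]; simp
      refine Or.inr ⟨b, by simp [two, h2], a, by simp [two], ?_⟩
      simpa using (List.mem_filter.1 h3).2

/-- candidate yields from `u` -/
def cand (E : Edges) (P : List (ℕ × List Bool)) (u : ℕ) : List (List Bool) :=
  E.flatMap fun e => (P.filter fun p => decide (e.1 = u) && decide (p.1 = e.2.2)).map
    fun p => e.2.1 :: p.2

theorem mem_cand {P : List (ℕ × List Bool)} {u : ℕ} {y : List Bool} :
    y ∈ cand E P u ↔ ∃ b v z, (u, b, v) ∈ E ∧ (v, z) ∈ P ∧ y = b :: z := by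
  simp only [cand, List.mem_flatMap, List.mem_map, List.mem_filter, Bool.and_eq_true,
    decide_eq_true_eq]
  constructor
  · rintro ⟨⟨u', b, v⟩, h1, ⟨v', z⟩, ⟨h2, rfl, rfl⟩, rfl⟩
    exact ⟨b, _, z, h1, h2, rfl⟩
  · rintro ⟨b, v, z, h1, h2, rfl⟩
    exact ⟨_, h1, _, ⟨h2, rfl, rfl⟩, rfl⟩

/-- one round -/
def nxt (E : Edges) (P : List (ℕ × List Bool)) : List (ℕ × List Bool) :=
  E.flatMap fun e => (two (cand E P e.1)).map fun y => (e.1, y)

theorem mem_nxt {P : List (ℕ × List Bool)} {u : ℕ} {y : List Bool} :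
    (u, y) ∈ nxt E P ↔ u ∈ E.map Prod.fst ∧ y ∈ two (cand E P u) := by
  simp only [nxt, List.mem_flatMap, List.mem_map, Prod.mk.injEq]
  constructor
  · rintro ⟨e, h1, z, h2, rfl, rfl⟩
    exact ⟨⟨e, h1, rfl⟩, h2⟩
  · rintro ⟨⟨e, h1, rfl⟩, h2⟩
    exact ⟨e, h1, y, h2, rfl, rfl⟩

/-- the table after `k` rounds -/
def lev (E : Edges) (I : List ℕ) (k : ℕ) : List (ℕ × List Bool) :=
  (nxt E)^[k] (I.map fun v => (v, []))

theorem lev_succ (I : List ℕ) (k : ℕ) : lev E I (k + 1) = nxt E (lev E I k) :=
  Function.iterate_succ_apply' _ _ _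

theorem lev_sound {I : List ℕ} : ∀ {k : ℕ} {u : ℕ} {y : List Bool}, (u, y) ∈ lev E I k →
    y.length = k ∧ ∃ t ∈ I, Path E u y t
  | 0, u, y, h => by
    obtain ⟨v, h1, h2⟩ := List.mem_map.1 h
    obtain ⟨rfl, rfl⟩ := Prod.mk.inj h2
    exact ⟨rfl, v, h1, Path.nil v⟩
  | k + 1, u, y, h => by
    rw [lev_succ, mem_nxt] at h
    obtain ⟨b, v, z, h1, h2, rfl⟩ := mem_cand.1 (two_sub h.2)
    obtain ⟨h3, t, h4, h5⟩ := lev_sound h2
    exact ⟨by simp [h3], t, h4, Path.cons h1 h5⟩

theorem lev_complete {I : List ℕ} {u t : ℕ} {y : List Bool} (h : Path E u y t) (ht : t ∈ I) :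
    (u, y) ∈ lev E I y.length ∨
      ∃ y1 y2, (u, y1) ∈ lev E I y.length ∧ (u, y2) ∈ lev E I y.length ∧ y1 ≠ y2 := by
  induction h with
  | nil => exact Or.inl (List.mem_map.2 ⟨_, ht, rfl⟩)
  | @cons u v t b y he _ ih =>
    have hu : u ∈ E.map Prod.fst := List.mem_map.2 ⟨_, he, rfl⟩
    simp only [List.length_cons, lev_succ, mem_nxt, hu, true_and]
    have key : ∀ z, (v, z) ∈ lev E I y.length → b :: z ∈ cand E (lev E I y.length) u :=
      fun z hz => mem_cand.2 ⟨b, v, z, he, hz, rfl⟩
    rcases ih ht with h | ⟨y1, y2, h1, h2, h3⟩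
    · rcases two_spec (key _ h) with h | ⟨y1, h1, y2, h2, h3⟩
      · exact Or.inl h
      · exact Or.inr ⟨y1, y2, h1, h2, h3⟩
    · rcases two_spec (key _ h1) with a1 | ⟨y1, h1, y2, h2, h3⟩
      · rcases two_spec (key _ h2) with a2 | ⟨y1, h1, y2, h2, h3⟩
        · exact Or.inr ⟨_, _, a1, a2, by simpa using h3⟩
        · exact Or.inr ⟨y1, y2, h1, h2, h3⟩
      · exact Or.inr ⟨y1, y2, h1, h2, h3⟩

theorem lev_exists {I : List ℕ} {u t : ℕ} {y : List Bool} (h : Path E u y t) (ht : t ∈ I) :
    ∃ z, (u, z) ∈ lev E I y.length := by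
  rcases lev_complete h ht with h | ⟨y1, _, h, -⟩
  exacts [⟨_, h⟩, ⟨_, h⟩]

theorem acyclic_iff : Acyclic E ↔ (lev E (E.map Prod.fst) (E.length + 1)).isEmpty = true := by
  rw [List.isEmpty_iff, List.eq_nil_iff_forall_not_mem]
  constructor
  · rintro h ⟨u, y⟩ hu
    obtain ⟨h1, t, -, h2⟩ := lev_sound hu
    have := h2.length_le h
    omega
  · intro h u y hy
    by_contra h0
    obtain ⟨v, z, h1, h2, h3⟩ := long_path (E.length + 1) hy h0
    obtain ⟨w, hw⟩ := lev_exists h2 h1
    exact h _ (h3 ▸ hw)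

/-- all non-squares, and the squares of members of `A` -/
def Sq (A : Set (List Bool)) : Set (List Bool) := {u | ∀ w, u = w ++ w → w ∈ A}

/-- the test on two halves -/
def test (a : List Bool → Bool) (y z : List Bool) : Bool :=
  decide (z.length = y.length + 1) || (decide (z.length = y.length) && (!decide (y = z) || a y))

/-- all tables -/
def tabs (E : Edges) (t : ℕ) : List (ℕ × List Bool) :=
  (List.range (E.length + 1)).flatMap fun k => lev E [t] (min k (E.length + 1))

theorem mem_tabs {t : ℕ} {p : ℕ × List Bool} :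
    p ∈ tabs E t ↔ ∃ k ≤ E.length, p ∈ lev E [t] k := by
  simp only [tabs, List.mem_flatMap, List.mem_range]
  constructor
  · rintro ⟨k, h1, h2⟩
    rw [min_eq_left h1.le] at h2
    exact ⟨k, by omega, h2⟩
  · rintro ⟨k, h1, h2⟩
    exact ⟨k, by omega, by rwa [min_eq_left (by omega)]⟩

/-- the algorithm -/
def alg (a : List Bool → Bool) (p : Edges × ℕ × ℕ) : Bool :=
  (lev p.1 (p.1.map Prod.fst) (p.1.length + 1)).isEmpty &&
    (tabs (rev p.1) p.2.1).any fun q => (tabs p.1 p.2.2).any fun r =>
      decide (q.1 = r.1) && test a q.2.reverse r.2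

theorem alg_spec {A : Set (List Bool)} {a : List Bool → Bool} (ha : ∀ w, w ∈ A ↔ a w = true)
    (p : Edges × ℕ × ℕ) :
    (Acyclic p.1 ∧ ∃ y ∈ Sq A, Path p.1 p.2.1 y p.2.2) ↔ alg a p = true := by
  obtain ⟨E, s, t⟩ := p
  simp only [alg, Bool.and_eq_true, ← acyclic_iff, List.any_eq_true, mem_tabs, decide_eq_true_eq]
  refine and_congr_right fun hE => ⟨?_, ?_⟩
  · rintro ⟨u, hu, h⟩
    have hl := h.length_le hE
    rw [← List.take_append_drop (u.length / 2) u] at h hu
    have l1 : (u.take (u.length / 2)).length = u.length / 2 := by simp; omega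
    have l2 : (u.drop (u.length / 2)).length = u.length - u.length / 2 := by simp
    generalize u.take (u.length / 2) = y at h hu l1
    generalize u.drop (u.length / 2) = z at h hu l2
    obtain ⟨v, h1, h2⟩ := h.split
    have k1 : y.reverse.length ≤ (rev E).length := by simp [rev]; omega
    have k2 : z.length ≤ E.length := by omega
    have fin : ∀ y' z', (v, y') ∈ lev (rev E) [s] y.reverse.length → (v, z') ∈ lev E [t] z.length →
        (z.length = y.length → y'.reverse = z' → a y'.reverse = true) →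
        ∃ q, (∃ k ≤ (rev E).length, q ∈ lev (rev E) [s] k) ∧ ∃ r, (∃ k ≤ E.length, r ∈ lev E [t] k) ∧
          q.1 = r.1 ∧ test a q.2.reverse r.2 = true := by
      intro y' z' b1 b2 b3
      refine ⟨_, ⟨_, k1, b1⟩, _, ⟨_, k2, b2⟩, rfl, ?_⟩
      have c1 := (lev_sound b1).1
      have c2 := (lev_sound b2).1
      simp only [List.length_reverse] at c1
      simp only [test, Bool.or_eq_true, Bool.and_eq_true, decide_eq_true_eq, List.length_reverse,
        Bool.not_eq_true', decide_eq_false_iff_not, c1, c2]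
      by_cases e : z.length = y.length
      · refine Or.inr ⟨e, ?_⟩
        by_cases e' : y'.reverse = z'
        · exact Or.inr (b3 e e')
        · exact Or.inl e'
      · exact Or.inl (by omega)
    obtain ⟨y0, hy0⟩ := lev_exists h1.rev (List.mem_singleton_self s)
    obtain ⟨z0, hz0⟩ := lev_exists h2 (List.mem_singleton_self t)
    rcases lev_complete h1.rev (List.mem_singleton_self s) with a1 | ⟨y1, y2, a1, a2, a3⟩
    · rcases lev_complete h2 (List.mem_singleton_self t) with b1 | ⟨z1, z2, b1, b2, b3⟩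
      · refine fin _ _ a1 b1 fun _ e => ?_
        rw [List.reverse_reverse] at e ⊢
        exact (ha y).1 (hu y (by rw [e]))
      · by_cases e : y0.reverse = z1
        · exact fin _ _ hy0 b2 fun _ e' => absurd (e.symm.trans e') b3
        · exact fin _ _ hy0 b1 fun _ e' => absurd e' e
    · by_cases e : y1.reverse = z0
      · exact fin _ _ a2 hz0 fun _ e' => absurd (List.reverse_injective (e.trans e'.symm)) a3
      · exact fin _ _ a1 hz0 fun _ e' => absurd e' e
  · rintro ⟨⟨v, y⟩, ⟨k, -, h1⟩, ⟨v', z⟩, ⟨k', -, h2⟩, rfl, h3⟩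
    obtain ⟨-, s', a1, a2⟩ := lev_sound h1
    obtain ⟨-, t', b1, b2⟩ := lev_sound h2
    rw [List.mem_singleton] at a1 b1
    subst a1 b1
    have a3 := a2.rev
    rw [rev_rev] at a3
    refine ⟨_, fun w hw => ?_, a3.append b2⟩
    simp only [test, Bool.or_eq_true, Bool.and_eq_true, decide_eq_true_eq,
      Bool.not_eq_true', decide_eq_false_iff_not] at h3
    have hl := congrArg List.length hw
    simp only [List.length_append] at hl
    rcases h3 with h3 | ⟨h3, h4⟩
    · omega
    · obtain ⟨e1, e2⟩ := List.append_inj hw (by omega)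
      rw [e1, e2] at h4
      exact (ha w).2 (h4.resolve_left fun h => h rfl)

theorem poly_two : NPC.Poly two := by
  refine (Poly.listCases (l := fun l : List (List Bool) => l) (g := fun _ => [])
    (h := fun _ a l => a :: (l.filter fun b => !decide (b = a)).head?.toList) Poly.id
    (NPC.Poly.const _) (Poly.cons (Poly.fst (Poly.snd Poly.id)) ?_)).congr fun l => by
      cases l <;> rfl
  refine (Poly.optCases (g := fun _ => ([] : List (List Bool))) (h := fun _ b => [b])
    (Poly.head? (Poly.filter (p := fun (x : List (List Bool) × List Bool × List (List Bool)) b =>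
      !decide (b = x.2.1)) (Poly.snd (Poly.snd Poly.id)) (Poly.not (Poly.decide_eq
        (Poly.snd Poly.id) (Poly.fst (Poly.snd (Poly.fst Poly.id)))))))
    (NPC.Poly.const _) (Poly.cons (Poly.snd Poly.id) (NPC.Poly.const _))).congr fun x => ?_
  cases (x.2.2.filter fun b => !decide (b = x.2.1)).head? <;> rfl

theorem poly_cand : NPC.Poly fun x : Edges × List (ℕ × List Bool) × ℕ => cand x.1 x.2.1 x.2.2 := by
  refine Poly.flatMap (Poly.fst Poly.id) (NPC.Poly.map (Poly.filter
    (Poly.fst (Poly.snd (Poly.fst Poly.id))) (Poly.and (Poly.decide_eq ?_ ?_)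
      (Poly.decide_eq ?_ ?_))) (Poly.cons ?_ ?_))
  · exact Poly.fst (Poly.snd (Poly.fst Poly.id))
  · exact Poly.snd (Poly.snd (Poly.fst (Poly.fst Poly.id)))
  · exact Poly.fst (Poly.snd Poly.id)
  · exact Poly.snd (Poly.snd (Poly.snd (Poly.fst Poly.id)))
  · exact Poly.fst (Poly.snd (Poly.snd (Poly.fst Poly.id)))
  · exact Poly.snd (Poly.snd Poly.id)

theorem poly_nxt : NPC.Poly fun x : Edges × List (ℕ × List Bool) => nxt x.1 x.2 :=
  Poly.flatMap (Poly.fst Poly.id) (NPC.Poly.map (poly_two.comp (poly_cand.comp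
    (Poly.pair (Poly.fst (Poly.fst Poly.id)) (Poly.pair (Poly.snd (Poly.fst Poly.id))
      (Poly.fst (Poly.snd Poly.id))))))
    (Poly.pair (Poly.fst (Poly.snd (Poly.fst Poly.id))) (Poly.snd Poly.id)))

theorem nxt_length (P : List (ℕ × List Bool)) : (nxt E P).length ≤ 2 * E.length := by
  have : ∀ F : Edges, (F.flatMap fun e => (two (cand E P e.1)).map fun y => (e.1, y)).length ≤
      2 * F.length := by
    intro F
    induction F with
    | nil => simp
    | cons e F ih =>
      have := two_length (cand E P e.1)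
      simp only [List.flatMap_cons, List.length_append, List.length_map, List.length_cons]
      omega
  exact this E

theorem poly_lev :
    NPC.Poly fun x : Edges × List ℕ × ℕ => lev x.1 x.2.1 (min x.2.2 (x.1.length + 1)) := by
  have h1 : UPoly fun x : Edges × List ℕ × ℕ => min x.2.2 (x.1.length + 1) :=
    UPoly.of_le (Poly.min (Poly.snd (Poly.snd Poly.id)) (Poly.succ (Poly.length (Poly.fst Poly.id))))
      (UPoly.add (UPoly.length (Poly.fst Poly.id)) (UPoly.const 1)) fun _ => min_le_right _ _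
  refine (Poly.iterLen (F := fun (x : Edges × List ℕ × ℕ) P => nxt x.1 P)
    (s := fun x => x.2.1.map fun v => (v, ([] : List Bool))) h1
    (NPC.Poly.map (F := fun _ v => (v, ([] : List Bool))) (Poly.fst (Poly.snd Poly.id))
      (Poly.pair (Poly.snd Poly.id) (NPC.Poly.const _)))
    (poly_nxt.comp (Poly.pair (Poly.fst (Poly.fst Poly.id)) (Poly.snd Poly.id)))
    (2 * Polynomial.X * (5 * Polynomial.X + 3) + 1) ?_).congr fun x => by simp [lev]
  rintro ⟨E, I, n⟩ k hk
  have e1 := length_lt_sz E
  have e2 := length_lt_sz I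
  simp only [List.length_replicate] at hk
  have hk' : k ≤ E.length + 1 := hk.trans (min_le_right _ _)
  have h2 : (lev E I k).length ≤ 2 * sz (E, I, n) := by
    simp only [sz_pair]
    cases k with
    | zero => simp [lev]; omega
    | succ k =>
      rw [lev_succ]
      have := nxt_length (E := E) (lev E I k)
      omega
  have h3 : ∀ p ∈ lev E I k, sz p ≤ 5 * sz (E, I, n) + 2 := by
    rintro ⟨u, y⟩ hp
    have a1 := (lev_sound hp).1
    have a2 := sz_listBool_le y
    have a3 : sz u ≤ sz E + sz I := by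
      cases k with
      | zero =>
        obtain ⟨v, h1, h2⟩ := List.mem_map.1 hp
        obtain ⟨rfl, -⟩ := Prod.mk.inj h2
        have := sz_le_of_mem h1
        omega
      | succ k =>
        rw [lev_succ, mem_nxt] at hp
        obtain ⟨⟨u', e⟩, h1, rfl⟩ := List.mem_map.1 hp.1
        have := sz_le_of_mem h1
        simp only [sz_pair] at this ⊢
        omega
    simp only [sz_pair]
    omega
  have h4 := sz_le_length_mul _ _ h3
  simp only [Polynomial.eval_add, Polynomial.eval_mul, Polynomial.eval_X, Polynomial.eval_ofNat,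
    Polynomial.eval_one]
  exact h4.trans (Nat.add_le_add_right (Nat.mul_le_mul_right _ h2) 1)

theorem poly_tabs : NPC.Poly fun x : Edges × ℕ => tabs x.1 x.2 :=
  Poly.flatMap (UPoly.range (UPoly.add (UPoly.length (Poly.fst Poly.id)) (UPoly.const 1)))
    (poly_lev.comp (Poly.pair (Poly.fst (Poly.fst Poly.id))
      (Poly.pair (Poly.cons (Poly.snd (Poly.fst Poly.id)) (NPC.Poly.const []))
        (Poly.snd Poly.id))))

theorem poly_rev : NPC.Poly rev :=
  NPC.Poly.map Poly.id (Poly.pair (Poly.snd (Poly.snd (Poly.snd Poly.id)))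
    (Poly.pair (Poly.fst (Poly.snd (Poly.snd Poly.id))) (Poly.fst (Poly.snd Poly.id))))

theorem poly_test {a : List Bool → Bool} (ha : NPC.Poly a) :
    NPC.Poly fun x : List Bool × List Bool => test a x.1 x.2 :=
  Poly.or (Poly.decide_eq (Poly.length (Poly.snd Poly.id))
      (Poly.succ (Poly.length (Poly.fst Poly.id))))
    (Poly.and (Poly.decide_eq (Poly.length (Poly.snd Poly.id)) (Poly.length (Poly.fst Poly.id)))
      (Poly.or (Poly.not (Poly.decide_eq (Poly.fst Poly.id) (Poly.snd Poly.id)))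
        (ha.comp (Poly.fst Poly.id))))

theorem poly_alg {a : List Bool → Bool} (ha : NPC.Poly a) : NPC.Poly (alg a) := by
  have h1 : NPC.Poly fun p : Edges × ℕ × ℕ => lev p.1 (p.1.map Prod.fst) (p.1.length + 1) :=
    (poly_lev.comp (f := fun p : Edges × ℕ × ℕ => (p.1, p.1.map Prod.fst, p.1.length + 1))
      (Poly.pair (Poly.fst Poly.id) (Poly.pair
        (NPC.Poly.map (F := fun _ e => Prod.fst e) (Poly.fst Poly.id) (Poly.fst (Poly.snd Poly.id)))
        (Poly.succ (Poly.length (Poly.fst Poly.id)))))).congr fun x => by simp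
  have h2 : NPC.Poly fun p : Edges × ℕ × ℕ => tabs (rev p.1) p.2.1 :=
    poly_tabs.comp (f := fun p : Edges × ℕ × ℕ => (rev p.1, p.2.1))
      (Poly.pair (poly_rev.comp (Poly.fst Poly.id)) (Poly.fst (Poly.snd Poly.id)))
  have h3 : NPC.Poly fun p : (Edges × ℕ × ℕ) × ℕ × List Bool => tabs p.1.1 p.1.2.2 :=
    poly_tabs.comp (f := fun p : (Edges × ℕ × ℕ) × ℕ × List Bool => (p.1.1, p.1.2.2))
      (Poly.pair (Poly.fst (Poly.fst Poly.id)) (Poly.snd (Poly.snd (Poly.fst Poly.id))))
  have h4 : NPC.Poly fun p : ((Edges × ℕ × ℕ) × ℕ × List Bool) × ℕ × List Bool =>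
      test a p.1.2.2.reverse p.2.2 :=
    (poly_test ha).comp (f := fun p : ((Edges × ℕ × ℕ) × ℕ × List Bool) × ℕ × List Bool =>
      (p.1.2.2.reverse, p.2.2)) (Poly.pair (Poly.reverse (Poly.snd (Poly.snd (Poly.fst Poly.id))))
        (Poly.snd (Poly.snd Poly.id)))
  have h5 : NPC.Poly fun p : ((Edges × ℕ × ℕ) × ℕ × List Bool) × ℕ × List Bool =>
      decide (p.1.2.1 = p.2.1) :=
    Poly.decide_eq (Poly.fst (Poly.snd (Poly.fst Poly.id))) (Poly.fst (Poly.snd Poly.id))
  have h6 : NPC.Poly fun p : (Edges × ℕ × ℕ) × ℕ × List Bool => (tabs p.1.1 p.1.2.2).any fun r =>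
      decide (p.2.1 = r.1) && test a p.2.2.reverse r.2 :=
    Poly.any (p := fun (p : (Edges × ℕ × ℕ) × ℕ × List Bool) r =>
      decide (p.2.1 = r.1) && test a p.2.2.reverse r.2) h3 (Poly.and h5 h4)
  exact Poly.and (Poly.isEmpty h1) (Poly.any (p := fun (p : Edges × ℕ × ℕ) q =>
    (tabs p.1 p.2.2).any fun r => decide (q.1 = r.1) && test a q.2.reverse r.2) h2 h6)

theorem dagReach_sq {A : Set (List Bool)} (h : InP A) : InP (DagReach (Sq A)) := by
  obtain ⟨V, hV, hA⟩ := h
  exact inPP_of (poly_alg (a := fun w => decide (V w = [true]))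
    (Poly.decide_eq (H622R2.poly_of_polyTime hV) (NPC.Poly.const _)))
    (alg_spec fun w => by simpa using hA w)

/-- the path labelled by a word -/
def line (x : List Bool) : Edges := x.zipIdx.map fun p => (p.2, p.1, p.2 + 1)

theorem mem_line {x : List Bool} {i j : ℕ} {b : Bool} :
    (i, b, j) ∈ line x ↔ x[i]? = some b ∧ j = i + 1 := by
  simp only [line, List.mem_map, List.mem_zipIdx_iff_getElem?, Prod.mk.injEq]
  constructor
  · rintro ⟨p, h, rfl, rfl, rfl⟩
    exact ⟨h, rfl⟩
  · rintro ⟨h, rfl⟩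
    exact ⟨(b, i), h, rfl, rfl, rfl⟩

theorem line_path {x y : List Bool} {i j : ℕ} (h : Path (line x) i y j) :
    j = i + y.length ∧ y = (x.drop i).take y.length := by
  induction h with
  | nil => simp
  | @cons u v t b y he _ ih =>
    obtain ⟨h1, rfl⟩ := mem_line.1 he
    obtain ⟨h2, h3⟩ := List.getElem?_eq_some_iff.1 h1
    refine ⟨by simp [ih.1]; omega, ?_⟩
    rw [List.drop_eq_getElem_cons h2, List.length_cons, List.take_succ_cons, h3, ← ih.2]

theorem path_line (x : List Bool) : ∀ (y : List Bool) (i : ℕ), x.drop i = y →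
    Path (line x) i y (i + y.length)
  | [], i, _ => Path.nil i
  | b :: y, i, h => by
    have h1 : x[i]? = some b := by simpa using congrArg List.head? h
    have h2 : x.drop (i + 1) = y := by simpa using congrArg List.tail h
    have h3 := path_line x y (i + 1) h2
    rw [List.length_cons, ← add_assoc, add_right_comm]
    exact Path.cons (mem_line.2 ⟨h1, rfl⟩) h3

theorem inP_of_dagReach {L : Set (List Bool)} (h : InP (DagReach L)) : InP L := by
  refine InP.of_reduces ⟨fun x => bits (line x, 0, x.length), polyTime_bits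
    (g := fun x => (line x, 0, x.length)) (Poly.pair (NPC.Poly.map (Poly.zipIdx Poly.id)
      (Poly.pair (Poly.snd (Poly.snd Poly.id)) (Poly.pair (Poly.fst (Poly.snd Poly.id))
        (Poly.succ (Poly.snd (Poly.snd Poly.id))))))
      (Poly.pair (NPC.Poly.const 0) (Poly.length Poly.id))), fun x => ?_⟩ h
  rw [DagReach, bits_mem_lang]
  constructor
  · intro hx
    refine ⟨fun u y hy => ?_, x, hx, by simpa using path_line x x 0 rfl⟩
    have := (line_path hy).1
    exact List.length_eq_zero_iff.1 (by omega)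
  · rintro ⟨-, y, hy, h1⟩
    obtain ⟨h2, h3⟩ := line_path h1
    simp only [zero_add] at h2
    rwa [h3, ← h2, List.drop_zero, List.take_length] at hy

end Pool.Agent.H287Z.NC
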