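import Pool.Agent.H287Z.NC.Defs
import Pool.Agent.NPC.Num

set_option autoImplicit false
set_option linter.unusedSimpArgs false

namespace Pool.Agent.H287Z.NC

open Pool.Agent.NPC

/-- states of the new machine -/
inductive St (Q : Type) : Type
  | nxt : St Q
  | chk : St Q
  | scan (c : Bool) : St Q
  | ret : St Q
  | back : St Q
  | sim (q : Q) (f : Bool) : St Q
  | fix (q : Q) (f : Bool) : St Q

theorem St.finite {Q : Type} (h : Finite Q) : Finite (St Q) :=
  Finite.of_injective (β := Fin 7 × Option Q × Bool) (fun s => match s with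
    | St.nxt => (0, none, false)
    | St.chk => (1, none, false)
    | St.scan c => (2, none, c)
    | St.ret => (3, none, false)
    | St.back => (4, none, false)
    | St.sim q f => (5, some q, f)
    | St.fix q f => (6, some q, f)) fun a b => by
      cases a <;> cases b <;> simp

/-- the opposite move -/
def Dir.flip : Dir → Dir
  | Dir.left => Dir.right
  | Dir.stay => Dir.stay
  | Dir.right => Dir.left

/-- the first projection -/
def prj : Bool × Bool × Bool × Bool := (false, false, true, true)

/-- the symbol seen by the simulated machine -/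
def vsym (f : Bool) : Sym → Sym
  | Sym.left => if f then Sym.right else Sym.left
  | s => s

/-- the transitions -/
def tr (M : Machine) : St M.Q → Sym → M.G × Bool × Option Bool →
    Option (St M.Q × (M.G × Bool × Option Bool) × Dir × Dir × List Bool)
  | St.nxt, _, a => some (St.chk, (a.1, true, none), Dir.right, Dir.stay, [])
  | St.chk, Sym.right, a => some (St.back, a, Dir.stay, Dir.stay, [])
  | St.chk, _, a => some (St.scan true, a, Dir.stay, Dir.right, true :: true :: (bits prj ++ [true]))
  | St.scan c, _, (a, m, some b) =>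
    some (St.scan (b && c), (a, m, some (b ^^ c)), Dir.stay, Dir.right, true :: bits b)
  | St.scan c, _, (a, m, none) =>
    some (St.ret, (a, m, if c then some true else none), Dir.stay, Dir.left, [false, false])
  | St.ret, _, (a, true, o) => some (St.nxt, (a, true, o), Dir.stay, Dir.stay, [])
  | St.ret, _, (a, false, o) => some (St.ret, (a, false, o), Dir.stay, Dir.left, [])
  | St.back, Sym.left, a => some (St.sim M.start false, a, Dir.stay, Dir.stay, [])
  | St.back, _, a => some (St.back, a, Dir.left, Dir.stay, [])
  | St.sim q f, s, a => (M.trans q (vsym f s) a.1).map fun r =>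
    (St.fix r.1 f, (r.2.1, a.2), if f then r.2.2.1.flip else r.2.2.1, r.2.2.2.1, r.2.2.2.2)
  | St.fix q f, Sym.right, a => some (St.sim q (!f), a, Dir.left, Dir.stay, [])
  | St.fix q f, _, a => some (St.sim q f, a, Dir.stay, Dir.stay, [])

/-- the new machine -/
def dbl (M : Machine) : Machine where
  Q := St M.Q
  G := M.G × Bool × Option Bool
  finQ := St.finite M.finQ
  finG := by have := M.finG; infer_instance
  start := St.nxt
  blank := (M.blank, false, none)
  trans := tr M

/-- runs inside the space bound -/
def R (M : Machine) (x : List Bool) (s : ℕ) : Cfg M → Cfg M → Prop :=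
  Relation.ReflTransGen fun a b => step M x a = some b ∧ b.h ≤ s

theorem R.head {M : Machine} {x : List Bool} {s : ℕ} {a b c : Cfg M} (h : step M x a = some b)
    (hb : b.h ≤ s) (h' : R M x s b c) : R M x s a c := Relation.ReflTransGen.head ⟨h, hb⟩ h'

theorem R.refl {M : Machine} {x : List Bool} {s : ℕ} {a : Cfg M} : R M x s a a :=
  Relation.ReflTransGen.refl

theorem R.trans {M : Machine} {x : List Bool} {s : ℕ} {a b c : Cfg M} (h : R M x s a b)
    (h' : R M x s b c) : R M x s a c := Relation.ReflTransGen.trans h h'

/-- the work tape holding a counter -/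
def tp (M : Machine) (l : List Bool) : ℕ → M.G × Bool × Option Bool
  | 0 => (M.blank, true, none)
  | k + 1 => (M.blank, false, l[k]?)

/-- binary increment -/
def inc : Bool → List Bool → List Bool
  | c, [] => if c then [true] else []
  | c, b :: l => (b ^^ c) :: inc (b && c) l

theorem inc_false (l : List Bool) : inc false l = l := by
  induction l with
  | nil => rfl
  | cons b l ih => simp [inc, ih]

theorem inc_true (j : ℕ) : inc true j.bits = (j + 1).bits := by
  induction j using Nat.binaryRec' with
  | zero => simp [inc]
  | bit b n h ih =>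
    rw [Nat.bits_append_bit n b h]
    cases b with
    | false =>
      have : Nat.bit false n + 1 = Nat.bit true n := by simp [Nat.bit]
      rw [this, Nat.bits_append_bit n true fun _ => rfl]
      simp [inc, inc_false]
    | true =>
      have : Nat.bit true n + 1 = Nat.bit false (n + 1) := by simp [Nat.bit]; omega
      rw [this, Nat.bits_append_bit (n + 1) false fun h => absurd h (by omega)]
      simp [inc, ih]

variable {M : Machine} {x : List Bool} {s : ℕ}

theorem tp_update (l l' : List Bool) (b b' : Bool) :
    Function.update (tp M (l ++ b :: l')) (l.length + 1) (M.blank, false, some b') =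
      tp M (l ++ b' :: l') := by
  funext k
  rcases eq_or_ne k (l.length + 1) with rfl | h
  · simp [tp]
  · rw [Function.update_of_ne h]
    cases k with
    | zero => rfl
    | succ k =>
      have : k ≠ l.length := by omega
      simp only [tp]
      grind

theorem tp_update' (l : List Bool) (c : Bool) :
    Function.update (tp M l) (l.length + 1) (M.blank, false, if c then some true else none) =
      tp M (l ++ inc c []) := by
  funext k
  rcases eq_or_ne k (l.length + 1) with rfl | h
  · cases c <;> simp [tp, inc]
  · rw [Function.update_of_ne h]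
    cases k with
    | zero => rfl
    | succ k =>
      have : k ≠ l.length := by omega
      simp only [tp, inc]
      cases c <;> grind

theorem ret_run (l : List Bool) {i : ℕ} (hi : i ≤ x.length + 1) (o : List Bool) :
    ∀ h ≤ s, R (dbl M) x s ⟨St.ret, i, tp M l, h, o⟩ ⟨St.nxt, i, tp M l, 0, o⟩
  | 0, _ => R.head (b := ⟨St.nxt, i, tp M l, 0, o⟩) (by
      simp [step, dbl, tr, tp, Dir.move, hi]) (Nat.zero_le _) R.refl
  | h + 1, hs => R.head (b := ⟨St.ret, i, tp M l, h, o⟩) (by
      simp [step, dbl, tr, tp, Dir.move, hi]) (by simp; omega) (ret_run l hi o h (by omega))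

theorem scan_run {i : ℕ} (hi : i ≤ x.length + 1) : ∀ (l' l : List Bool) (c : Bool) (o : List Bool),
    l.length + l'.length + 1 ≤ s →
    R (dbl M) x s ⟨St.scan c, i, tp M (l ++ l'), l.length + 1, o⟩
      ⟨St.nxt, i, tp M (l ++ inc c l'), 0, o ++ (bits l' ++ [false])⟩
  | [], l, c, o, hs => R.head (b := ⟨St.ret, i, tp M (l ++ inc c []), l.length, o ++ [false, false]⟩)
      (by simp [step, dbl, tr, tp, Dir.move, hi]; exact tp_update' l c) (by simp at hs ⊢; omega)
      (ret_run _ hi _ _ (by omega))
  | b :: l', l, c, o, hs => by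
    have h := scan_run hi l' (l ++ [b ^^ c]) (b && c) (o ++ true :: bits b) (by simp at hs ⊢; omega)
    simp only [List.append_assoc, List.singleton_append, List.length_append, List.length_singleton,
      List.cons_append, List.nil_append] at h
    have e : bits (b :: l') ++ [false] = true :: (bits b ++ (bits l' ++ [false])) := by
      rw [← List.append_assoc]
      rfl
    rw [e, inc]
    refine R.head ?_ ?_ h
    · simp [step, dbl, tr, tp, Dir.move, hi]
      exact tp_update l l' b _
    · simp at hs ⊢
      omega

/-- the gates copying the input -/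
def copy (n : ℕ) : List Gate := (List.range n).map fun j => (prj, j, 0)

/-- their code -/
def pre (n : ℕ) : List Bool := (copy n).flatMap fun g => true :: bits g

theorem bits_append {α : Type} [TEnc α] (l l' : List α) :
    bits (l ++ l') = l.flatMap (fun g => true :: bits g) ++ bits l' := by
  induction l with
  | nil => rfl
  | cons a l ih =>
    have : bits (a :: l ++ l') = true :: (bits a ++ bits (l ++ l')) := rfl
    rw [this, ih]
    simp

theorem inSym_rep (n i : ℕ) : inSym (List.replicate n true) i =
    if i = 0 then Sym.left else if i ≤ n then Sym.bit true else Sym.right := by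
  cases i with
  | zero => rfl
  | succ i =>
    simp only [inSym, List.getElem?_replicate]
    by_cases h : i < n
    · simp [h, Nat.succ_le_iff]
    · simp [h, Nat.succ_le_iff]

theorem phase1 {n : ℕ} (hs : n.size + 1 ≤ s) : ∀ j ≤ n,
    R (dbl M) (List.replicate n true) s ⟨St.nxt, 0, fun _ => (M.blank, false, none), 0, []⟩
      ⟨St.chk, j + 1, tp M j.bits, 0, pre j⟩
  | 0, _ => R.head (by
      simp [step, dbl, tr, Dir.move, pre, copy]
      funext k
      cases k <;> simp [tp]) (Nat.zero_le _) Relation.ReflTransGen.refl
  | j + 1, hj => by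
    refine (phase1 hs j (by omega)).trans ?_
    have h1 := scan_run (M := M) (x := List.replicate n true) (s := s) (i := j + 1)
      (by simp; omega) j.bits [] true (pre j ++ true :: true :: (bits prj ++ [true])) (by
        have := Nat.size_le_size (show j ≤ n by omega)
        rw [Nat.size_eq_bits_len]
        simp; omega)
    rw [inc_true] at h1
    refine R.head ?_ (by simp; omega) (h1.trans (R.head ?_ (Nat.zero_le _)
      Relation.ReflTransGen.refl))
    · simp [step, dbl, tr, Dir.move, inSym_rep, hj]
      omega
    · have e : bits ((prj, j, 0) : Gate) = true :: (bits prj ++ true :: (bits j.bits ++ [false])) :=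
        rfl
      simp [step, dbl, tr, Dir.move, pre, copy, List.range_succ, e]
      exact ⟨by omega, rfl⟩

theorem back_run {n : ℕ} (t : ℕ → M.G × Bool × Option Bool) (o : List Bool) : ∀ i ≤ n + 1,
    R (dbl M) (List.replicate n true) s ⟨St.back, i, t, 0, o⟩ ⟨St.sim M.start false, 0, t, 0, o⟩
  | 0, _ => R.head (by simp [step, dbl, tr, Dir.move, inSym_rep]) (Nat.zero_le _)
      Relation.ReflTransGen.refl
  | i + 1, h => R.head (b := ⟨St.back, i, t, 0, o⟩) (by
      by_cases e : i + 1 ≤ n <;> simp [step, dbl, tr, Dir.move, inSym_rep, e] <;> omega)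
      (Nat.zero_le _) (back_run t o i (by omega))

/-- the configuration simulating a given one -/
def lift (n : ℕ) (t : ℕ → Bool × Option Bool) (o : List Bool) (c : Cfg M) : Cfg (dbl M) :=
  ⟨St.sim c.q (decide (n < c.i)), if n < c.i then 2 * n + 1 - c.i else c.i,
    fun k => (c.tape k, t k), c.h, o ++ c.out⟩

theorem vsym_eq {n i : ℕ} (hi : i ≤ 2 * n + 1) :
    vsym (decide (n < i)) (inSym (List.replicate n true) (if n < i then 2 * n + 1 - i else i)) =
      inSym (List.replicate (2 * n) true) i := by
  rw [inSym_rep, inSym_rep]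
  split_ifs <;> simp_all [vsym] <;> omega

theorem lift_none {n : ℕ} {t : ℕ → Bool × Option Bool} {o : List Bool} {c : Cfg M}
    (hi : c.i ≤ 2 * n + 1) (h : step M (List.replicate (2 * n) true) c = none) :
    step (dbl M) (List.replicate n true) (lift n t o c) = none := by
  simp only [step, Option.map_eq_none_iff] at h
  simp only [step, lift, dbl, tr, vsym_eq hi, h, Option.map_none]

theorem fix_step {n p : ℕ} (hp : p ≤ n + 1) (q : M.Q) (f : Bool) (t : ℕ → M.G × Bool × Option Bool)
    (h : ℕ) (o : List Bool) : step (dbl M) (List.replicate n true) ⟨St.fix q f, p, t, h, o⟩ =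
      some ⟨St.sim q (if p = n + 1 then !f else f), if p = n + 1 then n else p, t, h, o⟩ := by
  rcases eq_or_ne p (n + 1) with rfl | e
  · simp [step, dbl, tr, inSym_rep, Dir.move]
  · have e' : p ≤ n := by omega
    by_cases e0 : p = 0 <;> simp [step, dbl, tr, inSym_rep, Dir.move, e, e', e0, hp]

theorem fold_arith {n i : ℕ} (hi : i ≤ 2 * n + 1) (d : Dir) (p j : ℕ)
    (hp : p = min ((if n < i then d.flip else d).move (if n < i then 2 * n + 1 - i else i)) (n + 1))
    (hj : j = min (d.move i) (2 * n + 1)) :
    (if p = n + 1 then !decide (n < i) else decide (n < i)) = decide (n < j) ∧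
      (if p = n + 1 then n else p) = if n < j then 2 * n + 1 - j else j := by
  cases d <;> by_cases e : n < i <;>
    simp only [e, Dir.flip, Dir.move, if_true, if_false, decide_true, decide_false] at hp hj ⊢ <;>
    split_ifs <;> simp <;> omega

theorem lift_step {n : ℕ} {t : ℕ → Bool × Option Bool} {o : List Bool} {c c' : Cfg M}
    (hi : c.i ≤ 2 * n + 1) (h : step M (List.replicate (2 * n) true) c = some c') (hs : c'.h ≤ s) :
    c'.i ≤ 2 * n + 1 ∧ R (dbl M) (List.replicate n true) s (lift n t o c) (lift n t o c') := by
  simp only [step, Option.map_eq_some_iff] at h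
  obtain ⟨⟨q, a, di, dh, w⟩, h1, rfl⟩ := h
  refine ⟨by simp, R.head (b := ⟨St.fix q (decide (n < c.i)),
    min ((if n < c.i then di.flip else di).move (if n < c.i then 2 * n + 1 - c.i else c.i)) (n + 1),
    fun k => (Function.update c.tape c.h a k, t k), dh.move c.h, o ++ (c.out ++ w)⟩) ?_ hs
    (R.head ?_ hs R.refl)⟩
  · simp only [step, lift, dbl, tr, vsym_eq hi, h1, Option.map_some, List.length_replicate,
      List.append_assoc, decide_eq_true_eq]
    congr 2
    funext k
    rcases eq_or_ne k c.h with rfl | e
    · simp
    · simp [Function.update_of_ne e]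
  · obtain ⟨a1, a2⟩ := fold_arith hi di _ _ rfl rfl
    rw [fix_step (min_le_right _ _), a1, a2]
    simp only [lift, List.length_replicate]

theorem dbl_computes {n s s' : ℕ} {y : List Bool}
    (h : Computes M (List.replicate (2 * n) true) y s) (h1 : s ≤ s') (h2 : n.size + 1 ≤ s') :
    Computes (dbl M) (List.replicate n true) (pre n ++ y) s' := by
  obtain ⟨c, h3, h4, rfl⟩ := h
  have key : c.i ≤ 2 * n + 1 ∧ R (dbl M) (List.replicate n true) s'
      (lift n (fun k => (tp M n.bits k).2) (pre n) ⟨M.start, 0, fun _ => M.blank, 0, []⟩)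
      (lift n (fun k => (tp M n.bits k).2) (pre n) c) := by
    clear h4
    induction h3 with
    | refl => exact ⟨Nat.zero_le _, R.refl⟩
    | tail _ h ih =>
      obtain ⟨a1, a2⟩ := lift_step ih.1 h.1 (h.2.trans h1)
      exact ⟨a1, ih.2.trans a2⟩
  refine ⟨lift n (fun k => (tp M n.bits k).2) (pre n) c,
    ((phase1 h2 n le_rfl).trans (R.head (b := ⟨St.back, n + 1, tp M n.bits, 0, pre n⟩)
    (by simp [step, dbl, tr, Dir.move, inSym_rep]) (Nat.zero_le _)
    (back_run _ _ _ le_rfl))).trans ?_, lift_none key.1 h4, rfl⟩
  convert key.2 using 1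
  simp only [lift, Nat.not_lt_zero, decide_false, if_false, List.append_nil]
  congr 1
  funext k
  cases k <;> rfl

theorem wires_copy (x : List Bool) : ∀ j ≤ x.length, wires x (copy j) = x ++ x.take j
  | 0, _ => by simp [wires, copy]
  | j + 1, h => by
    have ih := wires_copy x j (by omega)
    simp only [wires, copy, List.range_succ, List.map_append, List.foldl_append] at ih ⊢
    rw [ih, List.take_add_one]
    have hj : j < x.length := h
    simp only [List.map_cons, List.map_nil, List.foldl_cons, List.foldl_nil, List.append_assoc,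
      List.getD_eq_getElem?_getD, List.getElem?_append_left hj, List.getElem?_eq_getElem hj]
    cases x[j] <;> cases ((x ++ List.take j x)[0]?.getD false) <;> rfl

theorem depths_copy (n : ℕ) : ∀ j ≤ n,
    depths n (copy j) = List.replicate n 0 ++ List.replicate j 1
  | 0, _ => by simp [depths, copy]
  | j + 1, h => by
    have ih := depths_copy n j (by omega)
    simp only [depths, copy, List.range_succ, List.map_append, List.foldl_append] at ih ⊢
    have hj : j < n := h
    have h0 : 0 < n := by omega
    rw [ih, List.replicate_succ']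
    simp [List.getElem?_append_left, hj, h0]

theorem depth_mono (C : List Gate) : ∀ ds ds' : List ℕ,
    List.Forall₂ (fun a b => a ≤ b + 1) ds ds' → List.Forall₂ (fun a b => a ≤ b + 1)
      (C.foldl (fun ds g => ds ++ [max (ds.getD g.2.1 0) (ds.getD g.2.2 0) + 1]) ds)
      (C.foldl (fun ds g => ds ++ [max (ds.getD g.2.1 0) (ds.getD g.2.2 0) + 1]) ds') := by
  induction C with
  | nil => exact fun _ _ h => h
  | cons g C ih =>
    intro ds ds' h
    refine ih _ _ (List.rel_append h (List.Forall₂.cons ?_ List.Forall₂.nil))
    have key : ∀ i, ds.getD i 0 ≤ ds'.getD i 0 + 1 := by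
      intro i
      obtain ⟨h1, h2⟩ := List.forall₂_iff_get.1 h
      by_cases e : i < ds.length
      · have := h2 i e (h1 ▸ e)
        simpa [List.getD_eq_getElem?_getD, e, h1 ▸ e] using this
      · simp [List.getD_eq_getElem?_getD, List.getElem?_eq_none (not_lt.1 e)]
    have := key g.2.1
    have := key g.2.2
    omega

theorem inNC_of_sq {A L : Set (List Bool)} (hA : ∀ w, w ∈ A ↔ w ++ w ∈ L) (h : InNC L) :
    InNC A := by
  obtain ⟨C, M, c, k, h1, h2, h3, h4⟩ := h
  have hl : ∀ n, Nat.log 2 (2 * n) + 1 ≤ 2 * (Nat.log 2 n + 1) := by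
    intro n
    rcases Nat.eq_zero_or_pos n with rfl | h
    · simp
    · rw [mul_comm, Nat.log_mul_base (by norm_num) h.ne']
      omega
  have h2k : 2 ≤ 2 ^ (k + 1) := Nat.le_self_pow (by omega) 2
  refine ⟨fun n => copy n ++ C (2 * n), dbl M, c * 2 ^ (k + 1) + 2, k + 1, fun n => ?_,
    fun n => ?_, fun n d hd => ?_, fun x => ?_⟩
  · rw [bits_append]
    refine dbl_computes (h1 _) ?_ ?_
    · refine (Nat.mul_le_mul_left c (hl n)).trans ?_
      rw [← mul_assoc]
      exact Nat.mul_le_mul_right _ ((Nat.mul_le_mul_left c h2k).trans (Nat.le_add_right _ _))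
    · have : n.size ≤ Nat.log 2 n + 1 := Nat.size_le.2 (Nat.lt_pow_succ_log_self (by norm_num) n)
      nlinarith [Nat.zero_le (c * 2 ^ (k + 1) * (Nat.log 2 n + 1))]
  · have a1 := h2 (2 * n)
    have a2 : (2 * n + 1) ^ k ≤ 2 ^ (k + 1) * (n + 1) ^ (k + 1) := by
      rw [← mul_pow]
      exact (Nat.pow_le_pow_left (by omega) k).trans (Nat.pow_le_pow_right (by omega) (by omega))
    have a3 : n + 1 ≤ (n + 1) ^ (k + 1) := Nat.le_self_pow (by omega) _
    have a4 := Nat.mul_le_mul_left c a2
    simp only [List.length_append, copy, List.length_map, List.length_range]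
    nlinarith
  · have a1 := depth_mono (C (2 * n)) (List.replicate n 0 ++ List.replicate n 1)
      (List.replicate (2 * n) 0) (by
        rw [two_mul, List.replicate_add]
        refine List.rel_append ?_ ?_ <;> simp [List.forall₂_iff_get])
    have a2 := depths_copy n n le_rfl
    simp only [depths, List.foldl_append] at hd a2 h3
    rw [a2] at hd
    obtain ⟨i, hi, rfl⟩ := List.getElem_of_mem hd
    obtain ⟨b1, b2⟩ := List.forall₂_iff_get.1 a1
    have b3 := b2 i hi (b1 ▸ hi)
    have b4 := h3 (2 * n) _ (List.getElem_mem (b1 ▸ hi))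
    have a3 : (Nat.log 2 (2 * n) + 1) ^ k ≤ 2 ^ (k + 1) * (Nat.log 2 n + 1) ^ (k + 1) := by
      rw [← mul_pow]
      exact (Nat.pow_le_pow_left (hl n) k).trans (Nat.pow_le_pow_right (by omega) (by omega))
    have a4 := Nat.mul_le_mul_left c a3
    have a5 : 0 < (Nat.log 2 n + 1) ^ (k + 1) := by positivity
    simp only [List.get_eq_getElem] at b3
    nlinarith
  · have a1 := wires_copy x x.length le_rfl
    rw [hA, h4, List.length_append, ← two_mul]
    simp only [wires, List.foldl_append] at a1 ⊢
    rw [a1, List.take_length]

end Pool.Agent.H287Z.NC
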